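import Pool.Agent.X9.PAC.Emb

/-!
# Existentially closed members of a class of countable subfields of the complex numbers
-/

set_option autoImplicit false

namespace Pool.Agent.X9.PAC

/-- countable subfields of `ℂ` without square roots of nonsquare natural numbers -/
def Cls (K : Subfield ℂ) : Prop :=
  Countable K ∧ ∀ m : ℕ, ¬ IsSquare m → ∀ x ∈ K, x ^ 2 ≠ (m : ℂ)

/-- systems of polynomial equations -/
abbrev Sys : Type := Σ m : ℕ, Finset (MvPolynomial (Fin m) ℂ)

/-- the polynomial has coefficients in `K` -/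
def FOver (K : Subfield ℂ) {m : ℕ} (f : MvPolynomial (Fin m) ℂ) : Prop :=
  f ∈ Set.range (MvPolynomial.map (σ := Fin m) K.subtype)

/-- the system has coefficients in `K` -/
def Over (K : Subfield ℂ) (s : Sys) : Prop := ∀ f ∈ s.2, FOver K f

lemma fOver_iff (K : Subfield ℂ) {m : ℕ} (f : MvPolynomial (Fin m) ℂ) :
    FOver K f ↔ ∀ c ∈ f.coeffs, c ∈ K := by
  have h0 : FOver K f ↔ (f.coeffs : Set ℂ) ⊆ Set.range K.subtype :=
    MvPolynomial.mem_range_map_iff_coeffs_subset (f := K.subtype) (x := f)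
  rw [h0]
  constructor
  · intro h c hc
    obtain ⟨y, hy⟩ := h hc
    rw [← hy]
    exact y.2
  · intro h c hc
    exact ⟨⟨c, h c hc⟩, rfl⟩

/-- the system has a solution in `K` -/
def Solv (K : Subfield ℂ) (s : Sys) : Prop :=
  ∃ x : Fin s.1 → ℂ, (∀ i, x i ∈ K) ∧ ∀ f ∈ s.2, MvPolynomial.eval x f = 0

lemma Solv.mono {K L : Subfield ℂ} (h : K ≤ L) {s : Sys} (hs : Solv K s) : Solv L s := by
  obtain ⟨x, h1, h2⟩ := hs
  exact ⟨x, fun i => h (h1 i), h2⟩

lemma countable_over (K : Subfield ℂ) [Countable K] : {s : Sys | Over K s}.Countable := by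
  classical
  let F : (Σ m : ℕ, Finset (MvPolynomial (Fin m) K)) → Sys :=
    fun s => ⟨s.1, s.2.image (MvPolynomial.map K.subtype)⟩
  have h1 : {s : Sys | Over K s} ⊆ Set.range F := by
    rintro ⟨m, T⟩ hs
    have hs' : ∀ f ∈ T, ∃ g : MvPolynomial (Fin m) K, MvPolynomial.map K.subtype g = f :=
      fun f hf => hs f hf
    choose! g hg using hs'
    refine ⟨⟨m, T.image g⟩, ?_⟩
    show (⟨m, (T.image g).image (MvPolynomial.map K.subtype)⟩ : Sys) = ⟨m, T⟩
    congr 1
    rw [Finset.image_image]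
    ext f
    simp only [Finset.mem_image, Function.comp]
    constructor
    · rintro ⟨f', hf', rfl⟩
      rw [hg f' hf']
      exact hf'
    · intro hf
      exact ⟨f, hf, hg f hf⟩
  refine Set.Countable.mono h1 ?_
  have : ∀ m, Countable (MvPolynomial (Fin m) K) := by
    intro m
    have := MvPolynomial.cardinalMk_le_max (σ := Fin m) (R := K)
    rw [← Cardinal.mk_le_aleph0_iff]
    refine this.trans ?_
    simp only [max_le_iff]
    exact ⟨⟨Cardinal.mk_le_aleph0, Cardinal.mk_le_aleph0⟩, le_rfl⟩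
  exact Set.countable_range F

lemma Cls_iSup (L : ℕ → Subfield ℂ) (hm : Monotone L) (h : ∀ i, Cls (L i)) : Cls (⨆ i, L i) := by
  have hd : Directed (· ≤ ·) L := hm.directed_le
  constructor
  · have h1 : ((⨆ i, L i : Subfield ℂ) : Set ℂ) = ⋃ i, (L i : Set ℂ) := Subfield.coe_iSup_of_directed hd
    have h2 : (⋃ i, (L i : Set ℂ)).Countable := by
      apply Set.countable_iUnion
      intro i
      exact Set.countable_coe_iff.1 (h i).1
    rw [← h1] at h2
    exact Set.countable_coe_iff.2 h2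
  · intro m hms x hx
    obtain ⟨i, hi⟩ := (Subfield.mem_iSup_of_directed hd).1 hx
    exact (h i).2 m hms x hi

open Classical in
/-- one step -/
noncomputable def stp (L : Subfield ℂ) (s : Sys) : Subfield ℂ :=
  if h : ∃ K', L ≤ K' ∧ Cls K' ∧ Solv K' s then h.choose else L

lemma stp_le (L : Subfield ℂ) (s : Sys) : L ≤ stp L s := by
  unfold stp
  split_ifs with h
  · exact h.choose_spec.1
  · exact le_rfl

lemma stp_cls (L : Subfield ℂ) (s : Sys) (hL : Cls L) : Cls (stp L s) := by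
  unfold stp
  split_ifs with h
  · exact h.choose_spec.2.1
  · exact hL

lemma stp_solv (L : Subfield ℂ) (s : Sys) (h : ∃ K', L ≤ K' ∧ Cls K' ∧ Solv K' s) : Solv (stp L s) s := by
  unfold stp
  rw [dif_pos h]
  exact h.choose_spec.2.2

/-- one round -/
lemma round (K : Subfield ℂ) (hK : Cls K) : ∃ K1, K ≤ K1 ∧ Cls K1 ∧
    ∀ s, Over K s → (∃ K', K1 ≤ K' ∧ Cls K' ∧ Solv K' s) → Solv K1 s := by
  have := hK.1
  have hne : {s : Sys | Over K s}.Nonempty := ⟨⟨0, ∅⟩, fun f hf => by simp at hf⟩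
  obtain ⟨e, he⟩ := (countable_over K).exists_eq_range hne
  let L : ℕ → Subfield ℂ := fun n => Nat.rec K (fun i Li => stp Li (e i)) n
  have hL0 : L 0 = K := rfl
  have hLs : ∀ i, L (i + 1) = stp (L i) (e i) := fun i => rfl
  have hm : Monotone L := monotone_nat_of_le_succ (fun i => by rw [hLs]; exact stp_le _ _)
  have hc : ∀ i, Cls (L i) := by
    intro i
    induction i with
    | zero => exact hK
    | succ i ih => rw [hLs]; exact stp_cls _ _ ih
  refine ⟨⨆ i, L i, ?_, Cls_iSup L hm hc, ?_⟩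
  · have := le_iSup L 0
    rwa [hL0] at this
  · intro s hs ⟨K', h1, h2, h3⟩
    have : s ∈ Set.range e := by rw [← he]; exact hs
    obtain ⟨i, rfl⟩ := this
    have h4 : Solv (L (i + 1)) (e i) := by
      rw [hLs]
      exact stp_solv _ _ ⟨K', (le_iSup L i).trans h1, h2, h3⟩
    exact h4.mono (le_iSup L (i + 1))

lemma Cls_bot : Cls ⊥ := by
  constructor
  · have : ((⊥ : Subfield ℂ) : Set ℂ) = Set.range (algebraMap ℚ ℂ) := by
      rw [Subfield.bot_eq_of_charZero]; rfl
    have h2 := Set.countable_range (algebraMap ℚ ℂ)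
    rw [← this] at h2
    exact Set.countable_coe_iff.2 h2
  · intro m hm x hx hxm
    rw [Subfield.bot_eq_of_charZero] at hx
    obtain ⟨q, rfl⟩ := hx
    apply hm
    have h1 : q ^ 2 = (m : ℚ) := by
      have : ((q ^ 2 : ℚ) : ℂ) = ((m : ℚ) : ℂ) := by push_cast; simpa using hxm
      exact_mod_cast this
    have h2 : IsSquare (m : ℚ) := ⟨q, by rw [← h1]; ring⟩
    exact Rat.isSquare_natCast_iff.1 h2

/-- **an existentially closed member** -/
theorem exists_ec : ∃ K : Subfield ℂ, Cls K ∧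
    ∀ s, Over K s → (∃ K', K ≤ K' ∧ Cls K' ∧ Solv K' s) → Solv K s := by
  choose! nx h1 h2 h3 using round
  let M : ℕ → Subfield ℂ := fun n => Nat.rec ⊥ (fun _ Mi => nx Mi) n
  have hMs : ∀ i, M (i + 1) = nx (M i) := fun i => rfl
  have hc : ∀ i, Cls (M i) := by
    intro i
    induction i with
    | zero => exact Cls_bot
    | succ i ih => rw [hMs]; exact h2 _ ih
  have hm : Monotone M := monotone_nat_of_le_succ (fun i => by rw [hMs]; exact h1 _ (hc i))
  have hd : Directed (· ≤ ·) M := hm.directed_le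
  refine ⟨⨆ i, M i, Cls_iSup M hm hc, ?_⟩
  intro s hs ⟨K', g1, g2, g3⟩
  -- the system is over some `M i`
  have hex : ∃ i, Over (M i) s := by
    have key : ∀ f ∈ s.2, ∃ i, ∀ j, i ≤ j → FOver (M j) f := by
      intro f hf
      have h4 := (fOver_iff _ _).1 (hs f hf)
      have h5 : ∀ c ∈ f.coeffs, ∃ i, c ∈ M i := fun c hc' => (Subfield.mem_iSup_of_directed hd).1 (h4 c hc')
      choose! ix hix using h5
      refine ⟨f.coeffs.sup ix, fun j hij => ?_⟩
      rw [fOver_iff]
      intro c hc'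
      exact hm ((Finset.le_sup hc').trans hij) (hix c hc')
    choose! iy hiy using key
    refine ⟨s.2.sup iy, fun f hf => hiy f hf _ (Finset.le_sup hf)⟩
  obtain ⟨i, hi⟩ := hex
  have h4 := h3 (M i) (hc i) s hi ⟨K', by rw [← hMs]; exact (le_iSup M (i + 1)).trans g1, g2, g3⟩
  rw [← hMs] at h4
  exact h4.mono (le_iSup M (i + 1))

end Pool.Agent.X9.PAC
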