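import Mathlib

/-!
# Embeddings of countable fields into the complex numbers over a countable subfield
-/

set_option autoImplicit false

namespace Pool.Agent.X9.PAC

open Cardinal

/-- a countable extension of a countable subfield of `ℂ` embeds into `ℂ` -/
theorem emb (K : Subfield ℂ) [Countable K] (F : Type) [Field F] [Algebra K F] [Countable F] :
    Nonempty (F →ₐ[K] ℂ) := by
  obtain ⟨s, hs⟩ := exists_isTranscendenceBasis K F
  obtain ⟨t, ht⟩ := exists_isTranscendenceBasis K ℂ
  have hK : #K ≤ ℵ₀ := Cardinal.mk_le_aleph0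
  have hC : ℵ₀ < #ℂ := by
    rw [Cardinal.mk_complex]; exact Cardinal.aleph0_lt_continuum
  have hcard := IsAlgClosed.cardinal_eq_cardinal_transcendence_basis_of_aleph0_lt' _ ht hK hC
  have hst : #s ≤ #t := by
    rw [← hcard]
    exact (Cardinal.mk_le_aleph0).trans hC.le
  obtain ⟨j⟩ : Nonempty (s ↪ t) := by
    rwa [Cardinal.le_def] at hst
  have hw : AlgebraicIndependent K (fun i : s => ((j i : t) : ℂ)) := ht.1.comp j j.injective
  let R := Algebra.adjoin K (Set.range ((↑) : s → F))
  let g : R →ₐ[K] ℂ := (MvPolynomial.aeval (fun i : s => ((j i : t) : ℂ))).comp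
    (hs.1.aevalEquiv.symm : R →ₐ[K] MvPolynomial s K)
  have hg : Function.Injective g := by
    rw [AlgHom.coe_comp]
    exact Function.Injective.comp hw (hs.1.aevalEquiv.symm.injective)
  let _ : Algebra R ℂ := g.toRingHom.toAlgebra
  have : IsScalarTower K R ℂ := IsScalarTower.of_algebraMap_eq (fun x => (g.commutes x).symm)
  have : FaithfulSMul R ℂ := (faithfulSMul_iff_algebraMap_injective R ℂ).2 hg
  have : Algebra.IsAlgebraic R F := hs.isAlgebraic
  let f : F →ₐ[R] ℂ := IsAlgClosed.lift
  exact ⟨f.restrictScalars K⟩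

end Pool.Agent.X9.PAC
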