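import Pool.Agent.X9.PAC.EC

/-!
# The absolute Galois group is not topologically finitely generated
-/

set_option autoImplicit false

namespace Pool.Agent.X9.PAC

lemma not_square (T T' : Finset ℕ) (hT : ∀ p ∈ T, p.Prime) (hT' : ∀ p ∈ T', p.Prime) (p : ℕ) (hp : p ∈ T)
    (hp' : p ∉ T') : ¬ IsSquare ((∏ q ∈ T, q) * ∏ q ∈ T', q) := by
  rintro ⟨k, hk⟩
  have hpp := hT p hp
  have h1 : p ∣ k * k := by
    rw [← hk]
    exact (Finset.dvd_prod_of_mem (fun q => q) hp).mul_right _
  have h2 : p ∣ k := (hpp.dvd_mul.1 h1).elim id id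
  obtain ⟨j, rfl⟩ := h2
  rw [← Finset.mul_prod_erase T (fun q => q) hp, mul_assoc] at hk
  have h3 : (∏ q ∈ T.erase p, q) * ∏ q ∈ T', q = j * (p * j) := by
    apply Nat.eq_of_mul_eq_mul_left hpp.pos
    rw [hk]; ring
  have h4 : p ∣ (∏ q ∈ T.erase p, q) * ∏ q ∈ T', q := ⟨j * j, by rw [h3]; ring⟩
  rcases hpp.dvd_mul.1 h4 with h | h
  · obtain ⟨q, hq, hpq⟩ := (hpp.prime.dvd_finsetProd_iff _).1 h
    rw [Finset.mem_erase] at hq
    exact hq.1 ((Nat.prime_dvd_prime_iff_eq hpp (hT q hq.2)).1 hpq).symm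
  · obtain ⟨q, hq, hpq⟩ := (hpp.prime.dvd_finsetProd_iff _).1 h
    have := (Nat.prime_dvd_prime_iff_eq hpp (hT' q hq)).1 hpq
    rw [← this] at hq
    exact hp' hq

lemma gal_aux (K : Subfield ℂ) (hK : Cls K) (S : Set (AlgebraicClosure K ≃ₐ[K] AlgebraicClosure K)) (hS : S.Finite) :
    (Subgroup.closure S).topologicalClosure ≠ ⊤ := by
  classical
  intro htop
  -- everything fixed by `S` is in `K`
  have key : ∀ (c : AlgebraicClosure K) (m : ℕ), ¬ IsSquare m → c ^ 2 = (m : AlgebraicClosure K) →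
      (∀ σ ∈ S, σ c = c) → False := by
    intro c m hm hc hfix
    have h1 : Subgroup.closure S ≤ (IntermediateField.adjoin K {c}).fixingSubgroup := by
      rw [Subgroup.closure_le]
      intro σ hσ
      rw [SetLike.mem_coe, IntermediateField.mem_fixingSubgroup_iff]
      intro x hx
      have h2 : IntermediateField.adjoin K {c} ≤ IntermediateField.fixedField (Subgroup.zpowers σ) := by
        rw [IntermediateField.adjoin_le_iff]
        rintro y rfl
        rw [SetLike.mem_coe, IntermediateField.mem_fixedField_iff]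
        intro τ hτ
        obtain ⟨k, rfl⟩ := Subgroup.mem_zpowers_iff.1 hτ
        have h3 : σ ∈ MulAction.stabilizer (AlgebraicClosure K ≃ₐ[K] AlgebraicClosure K) y := hfix σ hσ
        exact Subgroup.zpow_mem _ h3 k
      have h4 := h2 hx
      rw [IntermediateField.mem_fixedField_iff] at h4
      exact h4 σ (Subgroup.mem_zpowers σ)
    have h2 : (Subgroup.closure S).topologicalClosure ≤ (IntermediateField.adjoin K {c}).fixingSubgroup := by
      apply Subgroup.topologicalClosure_minimal _ h1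
      exact InfiniteGalois.fixingSubgroup_isClosed _
    rw [htop] at h2
    have h3 : c ∈ (⊥ : IntermediateField K (AlgebraicClosure K)) := by
      rw [InfiniteGalois.mem_bot_iff_fixed]
      intro σ
      have h4 := h2 (Subgroup.mem_top σ)
      rw [IntermediateField.mem_fixingSubgroup_iff] at h4
      exact h4 c (IntermediateField.mem_adjoin_simple_self K c)
    rw [IntermediateField.mem_bot] at h3
    obtain ⟨d, hd⟩ := h3
    have h5 : d ^ 2 = (m : K) := by
      apply (algebraMap K (AlgebraicClosure K)).injective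
      rw [map_pow, hd, hc, map_natCast]
    apply hK.2 m hm (d : ℂ) d.2
    exact_mod_cast congrArg (fun z : K => (z : ℂ)) h5
  obtain ⟨r, hr⟩ : ∃ r : ℕ, r = hS.toFinset.card := ⟨_, rfl⟩
  obtain ⟨T0, hT0, hcard⟩ := Nat.infinite_setOfPred_prime.exists_subset_card_eq (r + 1)
  have hroot : ∀ p : ℕ, ∃ a : AlgebraicClosure K, a ^ 2 = (p : AlgebraicClosure K) := fun p =>
    IsAlgClosed.exists_pow_nat_eq _ (by norm_num)
  choose a ha using hroot
  have hsq : ∀ T : Finset ℕ, (∏ p ∈ T, a p) ^ 2 = ((∏ p ∈ T, p : ℕ) : AlgebraicClosure K) := by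
    intro T
    rw [← Finset.prod_pow]
    push_cast
    exact Finset.prod_congr rfl (fun p _ => ha p)
  have hpm : ∀ (σ : AlgebraicClosure K ≃ₐ[K] AlgebraicClosure K) (T : Finset ℕ),
      σ (∏ p ∈ T, a p) = ∏ p ∈ T, a p ∨ σ (∏ p ∈ T, a p) = -∏ p ∈ T, a p := by
    intro σ T
    apply sq_eq_sq_iff_eq_or_eq_neg.1
    rw [← map_pow, hsq, map_natCast]
  let f : Finset ℕ → (hS.toFinset → Bool) := fun T σ => decide (σ.1 (∏ p ∈ T, a p) = ∏ p ∈ T, a p)
  have hlt : (Finset.univ : Finset (hS.toFinset → Bool)).card < T0.powerset.card := by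
    rw [Finset.card_powerset, hcard, Finset.card_univ, Fintype.card_fun, Fintype.card_bool, Fintype.card_coe, ← hr]
    exact Nat.pow_lt_pow_right (by norm_num) (by omega)
  obtain ⟨T, hT, T', hT', hne, hff⟩ := Finset.exists_ne_map_eq_of_card_lt_of_maps_to hlt
    (f := f) (fun _ _ => Finset.mem_univ _)
  rw [Finset.mem_powerset] at hT hT'
  have hTp : ∀ p ∈ T, p.Prime := fun p hp => hT0 (hT hp)
  have hTp' : ∀ p ∈ T', p.Prime := fun p hp => hT0 (hT' hp)
  have hns : ¬ IsSquare ((∏ q ∈ T, q) * ∏ q ∈ T', q) := by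
    by_cases h : T ⊆ T'
    · have h' : ¬ T' ⊆ T := fun h' => hne (Finset.Subset.antisymm h h')
      obtain ⟨p, hp, hp'⟩ := Finset.not_subset.1 h'
      rw [mul_comm]
      exact not_square T' T hTp' hTp p hp hp'
    · obtain ⟨p, hp, hp'⟩ := Finset.not_subset.1 h
      exact not_square T T' hTp hTp' p hp hp'
  apply key ((∏ p ∈ T, a p) * ∏ p ∈ T', a p) _ hns
  · rw [mul_pow, hsq, hsq]
    push_cast
    ring
  · intro σ hσ
    have h1 := congrFun hff ⟨σ, hS.mem_toFinset.2 hσ⟩
    simp only [f, decide_eq_decide] at h1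
    rw [map_mul]
    rcases hpm σ T with h | h
    · rw [h, h1.1 h]
    · rcases hpm σ T' with h' | h'
      · rw [h', h1.2 h']
      · rw [h, h']; ring

end Pool.Agent.X9.PAC
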