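import Pool.Agent.X9.PAC.EC

/-!
# The existentially closed subfield has points in all geometrically integral algebras
-/

set_option autoImplicit false

namespace Pool.Agent.X9.PAC

open TensorProduct

variable {K : Subfield ℂ} {A : Type} [CommRing A] [Algebra K A]

/-- no new square roots -/
lemma no_sqrt (hK : Cls K) (hA : ∀ (L : Type) [Field L] [Algebra K L], IsDomain (A ⊗[K] L)) (m : ℕ)
    (hm : ¬ IsSquare m) (a b : A) (hab : a ^ 2 = (m : A) * b ^ 2) : b = 0 := by
  obtain ⟨r, hr⟩ := IsAlgClosed.exists_pow_nat_eq (m : ℂ) (n := 2) (by norm_num)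
  have hrK : r ∉ Submodule.span K {(1 : ℂ)} := by
    intro h
    obtain ⟨c, hc⟩ := Submodule.mem_span_singleton.1 h
    apply hK.2 m hm r _ hr
    rw [← hc, Algebra.smul_def, mul_one]
    exact c.2
  obtain ⟨φ, h1, h2⟩ := Submodule.exists_dual_map_eq_bot_of_notMem hrK inferInstance
  have h3 : φ 1 = 0 := by
    have : φ 1 ∈ (Submodule.span K {(1 : ℂ)}).map φ := ⟨1, Submodule.mem_span_singleton_self 1, rfl⟩
    rw [h2] at this
    simpa using this
  have hdom := hA ℂ
  have hprod : ((a ⊗ₜ[K] (1 : ℂ)) - (b ⊗ₜ[K] r)) * ((a ⊗ₜ[K] (1 : ℂ)) + (b ⊗ₜ[K] r)) = 0 := by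
    have e : ((a ⊗ₜ[K] (1 : ℂ)) - (b ⊗ₜ[K] r)) * ((a ⊗ₜ[K] (1 : ℂ)) + (b ⊗ₜ[K] r)) =
      (a ⊗ₜ[K] (1 : ℂ)) * (a ⊗ₜ[K] (1 : ℂ)) - (b ⊗ₜ[K] r) * (b ⊗ₜ[K] r) := by ring
    rw [e, Algebra.TensorProduct.tmul_mul_tmul, Algebra.TensorProduct.tmul_mul_tmul, mul_one,
      ← pow_two, ← pow_two, ← pow_two, hr, hab]
    have h4 : ((m : A) * b ^ 2) = (m : K) • (b ^ 2) := by
      rw [Algebra.smul_def]
      simp
    rw [h4, TensorProduct.smul_tmul]
    have h5 : (m : K) • (1 : ℂ) = (m : ℂ) := by
      rw [Algebra.smul_def]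
      simp
    rw [h5, sub_self]
  let Φ : A ⊗[K] ℂ →ₗ[K] A := (TensorProduct.rid K A).toLinearMap.comp (LinearMap.lTensor A φ)
  have hΦ : ∀ (x : A) (c : ℂ), Φ (x ⊗ₜ c) = φ c • x := by
    intro x c
    simp [Φ]
  have hb : φ r • b = 0 := by
    rcases mul_eq_zero.1 hprod with h | h
    · have h6 := congrArg Φ h
      rw [map_sub, hΦ, hΦ, h3, zero_smul, zero_sub, map_zero] at h6
      exact neg_eq_zero.1 h6
    · have h6 := congrArg Φ h
      rw [map_add, hΦ, hΦ, h3, zero_smul, zero_add, map_zero] at h6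
      exact h6
  have h7 : (φ r)⁻¹ • (φ r • b) = 0 := by rw [hb, smul_zero]
  rwa [smul_smul, inv_mul_cancel₀ h1, one_smul] at h7

theorem pac (hK : Cls K) (hec : ∀ s, Over K s → (∃ K', K ≤ K' ∧ Cls K' ∧ Solv K' s) → Solv K s)
    [Algebra.FiniteType K A] (hA : ∀ (L : Type) [Field L] [Algebra K L], IsDomain (A ⊗[K] L)) :
    Nonempty (A →ₐ[K] K) := by
  classical
  have hcK := hK.1
  obtain ⟨n, π, hπ⟩ := Algebra.FiniteType.iff_quotient_mvPolynomial''.1 ‹Algebra.FiniteType K A›
  have hdomA : IsDomain A := by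
    have := hA K
    exact (Algebra.TensorProduct.rid K K A).symm.toRingEquiv.toMulEquiv.isDomain
  have hcA : Countable A := by
    have : Countable (MvPolynomial (Fin n) K) := by
      have := MvPolynomial.cardinalMk_le_max (σ := Fin n) (R := K)
      rw [← Cardinal.mk_le_aleph0_iff]
      refine this.trans ?_
      simp only [max_le_iff]
      exact ⟨⟨Cardinal.mk_le_aleph0, Cardinal.mk_le_aleph0⟩, le_rfl⟩
    exact hπ.countable
  have hcF : Countable (FractionRing A) := by
    have : Function.Surjective (fun x : A × nonZeroDivisors A => IsLocalization.mk' (FractionRing A) x.1 x.2) := by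
      intro z
      obtain ⟨x, y, h⟩ := IsLocalization.exists_mk'_eq (nonZeroDivisors A) z
      exact ⟨(x, y), h⟩
    exact this.countable
  obtain ⟨e⟩ := emb K (FractionRing A)
  have he : Function.Injective e := e.toRingHom.injective
  let K' : Subfield ℂ := e.toRingHom.fieldRange
  have hKK' : K ≤ K' := by
    intro x hx
    refine ⟨algebraMap K (FractionRing A) ⟨x, hx⟩, ?_⟩
    exact e.commutes ⟨x, hx⟩
  have hK' : Cls K' := by
    constructor
    · have h1 : (K' : Set ℂ) = Set.range e := rfl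
      have h2 := Set.countable_range e
      rw [← h1] at h2
      exact Set.countable_coe_iff.2 h2
    · rintro m hm x ⟨y, rfl⟩ hxm
      obtain ⟨a, b, hb, rfl⟩ := IsFractionRing.div_surjective (A := A) y
      have hb0 : b ≠ 0 := nonZeroDivisors.ne_zero hb
      apply hb0
      apply no_sqrt hK hA m hm a b
      have h1 : (algebraMap A (FractionRing A) a / algebraMap A (FractionRing A) b) ^ 2 = (m : FractionRing A) := by
        apply he
        rw [map_pow, map_natCast]
        exact hxm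
      have hb1 : algebraMap A (FractionRing A) b ≠ 0 := by
        intro h
        exact hb0 ((FaithfulSMul.algebraMap_eq_zero_iff A (FractionRing A)).1 h)
      rw [div_pow, div_eq_iff (pow_ne_zero 2 hb1)] at h1
      apply FaithfulSMul.algebraMap_injective A (FractionRing A)
      rw [map_pow, map_mul, map_natCast, map_pow]
      exact h1
  -- the kernel
  have hfg : (RingHom.ker π).FG := IsNoetherian.noetherian _
  obtain ⟨T, hT⟩ := hfg
  let s : Sys := ⟨n, T.image (MvPolynomial.map K.subtype)⟩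
  have hs : Over K s := by
    intro f hf
    obtain ⟨g, _, rfl⟩ := Finset.mem_image.1 hf
    exact ⟨g, rfl⟩
  have hev : ∀ (x : Fin n → ℂ) (g : MvPolynomial (Fin n) K),
      MvPolynomial.eval x (MvPolynomial.map K.subtype g) = MvPolynomial.aeval x g := by
    intro x g
    rw [MvPolynomial.eval_map]
    rfl
  let ι : A →ₐ[K] FractionRing A := IsScalarTower.toAlgHom K A (FractionRing A)
  have hsol : Solv K' s := by
    refine ⟨fun i => e (ι (π (MvPolynomial.X i))), fun i => ⟨_, rfl⟩, ?_⟩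
    intro f hf
    obtain ⟨g, hg, rfl⟩ := Finset.mem_image.1 hf
    rw [hev]
    have h1 : (MvPolynomial.aeval (fun i : Fin n => e (ι (π (MvPolynomial.X i)))) : MvPolynomial (Fin n) K →ₐ[K] ℂ) =
        e.comp (ι.comp π) := by
      apply MvPolynomial.algHom_ext
      intro i
      simp
    rw [h1]
    have h2 : g ∈ RingHom.ker π := by rw [← hT]; exact Ideal.subset_span hg
    rw [RingHom.mem_ker] at h2
    simp only [AlgHom.comp_apply, h2, map_zero]
  obtain ⟨x, hx1, hx2⟩ := hec s hs ⟨K', hKK', hK', hsol⟩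
  let ψ : MvPolynomial (Fin n) K →ₐ[K] K := MvPolynomial.aeval (fun i => ⟨x i, hx1 i⟩)
  have hψ : ∀ g, algebraMap K ℂ (ψ g) = MvPolynomial.aeval x g := by
    intro g
    have h1 : (Algebra.ofId K ℂ).comp ψ = MvPolynomial.aeval x := by
      apply MvPolynomial.algHom_ext
      intro i
      simp only [ψ, AlgHom.comp_apply, MvPolynomial.aeval_X]
      rfl
    rw [← h1]
    rfl
  have hker : RingHom.ker π ≤ RingHom.ker ψ := by
    rw [← hT, Ideal.span_le]
    intro g hg
    show ψ g = 0
    have h1 := hx2 (MvPolynomial.map K.subtype g) (Finset.mem_image_of_mem _ hg)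
    rw [hev, ← hψ] at h1
    exact (map_eq_zero _).1 h1
  exact ⟨(Ideal.Quotient.liftₐ (RingHom.ker π) ψ (fun a ha => hker ha)).comp
    (Ideal.quotientKerAlgEquivOfSurjective hπ).symm.toAlgHom⟩

end Pool.Agent.X9.PAC
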