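import Pool.Agent.X9.PAC.Pac
import Pool.Agent.X9.PAC.Gal

/-!
# Points of geometrically integral schemes
-/

set_option autoImplicit false

namespace Pool.Agent.X9.PAC

open AlgebraicGeometry CategoryTheory Limits TensorProduct

lemma isDomain_of_open (k : Type) [Field k] (X : Scheme.{0}) (f : X ⟶ Spec (.of k)) [GeometricallyIntegral f]
    (A : CommRingCat.{0}) [Nontrivial A] [Algebra k A] (j : Spec A ⟶ X) [IsOpenImmersion j]
    (hj : j ≫ f = Spec.map (CommRingCat.ofHom (algebraMap k A))) (L : Type) [Field L] [Algebra k L] :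
    IsDomain (A ⊗[k] L) := by
  let y : Spec (.of L) ⟶ Spec (.of k) := Spec.map (CommRingCat.ofHom (algebraMap k L))
  have h1 : IsIntegral (pullback f y) :=
    GeometricallyIntegral.geometrically_isIntegral y _ _ (IsPullback.of_hasPullback f y)
  let e1 : pullback (j ≫ f) y ≅ Spec (.of (A ⊗[k] L)) :=
    pullback.congrHom hj rfl ≪≫ pullbackSpecIso k A L
  let g : Spec (.of (A ⊗[k] L)) ⟶ pullback f y :=
    e1.inv ≫ (pullbackRightPullbackFstIso f y j).inv ≫ pullback.snd j (pullback.fst f y)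
  have hg : IsOpenImmersion g := by
    dsimp only [g]
    infer_instance
  have hnt : Nontrivial (A ⊗[k] L) := by
    have : Function.Injective (Algebra.TensorProduct.includeLeft : A →ₐ[k] A ⊗[k] L) :=
      Algebra.TensorProduct.includeLeft_injective (S := k) (algebraMap k L).injective
    exact this.nontrivial
  have hne : Nonempty (Spec (.of (A ⊗[k] L))) := by
    show Nonempty (PrimeSpectrum (A ⊗[k] L))
    infer_instance
  have h2 : IsIntegral (Spec (.of (A ⊗[k] L))) := isIntegral_of_isOpenImmersion g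
  exact (affine_isIntegral_iff (.of (A ⊗[k] L))).1 h2

theorem sch (k : Type) [Field k]
    (hpac : ∀ (A : Type) [CommRing A] [Algebra k A] [Algebra.FiniteType k A],
      (∀ (L : Type) [Field L] [Algebra k L], IsDomain (A ⊗[k] L)) → Nonempty (A →ₐ[k] k))
    (X : Scheme.{0}) (f : X ⟶ Spec (.of k)) [GeometricallyIntegral f] [LocallyOfFiniteType f] :
    ∃ s : Spec (.of k) ⟶ X, s ≫ f = 𝟙 _ := by
  have hX : IsIntegral X := GeometricallyIntegral.isIntegral_of_subsingleton f
  obtain ⟨x⟩ : Nonempty X := inferInstance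
  let 𝒰 := X.affineOpenCover
  let A : CommRingCat := 𝒰.X (𝒰.idx x)
  let j : Spec A ⟶ X := 𝒰.f (𝒰.idx x)
  obtain ⟨φ, hφ⟩ : ∃ φ : CommRingCat.of k ⟶ A, Spec.map φ = j ≫ f := ⟨Spec.preimage (j ≫ f), Spec.map_preimage _⟩
  have hne : Nonempty (Spec A) := by
    obtain ⟨y, _⟩ := 𝒰.covers x
    exact ⟨y⟩
  have hnt : Nontrivial A := by
    have : Nonempty (PrimeSpectrum A) := hne
    exact PrimeSpectrum.nonempty_iff_nontrivial.1 this
  let _ : Algebra k A := φ.hom.toAlgebra
  have hφ' : j ≫ f = Spec.map (CommRingCat.ofHom (algebraMap k A)) := hφ.symm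
  have hft : Algebra.FiniteType k A := by
    have h1 : LocallyOfFiniteType (Spec.map φ) := by
      rw [hφ]; infer_instance
    exact (HasRingHomProperty.Spec_iff (P := @LocallyOfFiniteType)).1 h1
  have hA : ∀ (L : Type) [Field L] [Algebra k L], IsDomain (A ⊗[k] L) := by
    intro L _ _
    exact isDomain_of_open k X f A j hφ' L
  obtain ⟨α⟩ := hpac A hA
  refine ⟨Spec.map (CommRingCat.ofHom α.toRingHom) ≫ j, ?_⟩
  rw [Category.assoc, hφ', ← Spec.map_comp, ← CommRingCat.ofHom_comp]
  have : α.toRingHom.comp (algebraMap k A) = RingHom.id k := by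
    ext c
    exact α.commutes c
  rw [this]
  exact Spec.map_id _

/-- **the field** -/
theorem main : ∃ (K : Type) (_ : Field K) (_ : CharZero K),
    (∀ (X : Scheme.{0}) (f : X ⟶ Spec (.of K)) [GeometricallyIntegral f] [LocallyOfFiniteType f],
      ∃ s : Spec (.of K) ⟶ X, s ≫ f = 𝟙 _) ∧
    ∀ S : Set (Field.absoluteGaloisGroup K), S.Finite → (Subgroup.closure S).topologicalClosure ≠ ⊤ := by
  obtain ⟨K, hK, hec⟩ := exists_ec
  refine ⟨K, inferInstance, inferInstance, ?_, ?_⟩
  · intro X f _ _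
    exact sch K (fun A _ _ _ hA => pac hK hec hA) X f
  · intro S hS
    exact gal_aux K hK S hS

end Pool.Agent.X9.PAC
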